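import Pool.Agent.H326R2.Pi.Stmts
import Pool.Agent.H346R2.Pi.Coef

/-!
Task T10 of the project of helper326 (irrationality measure of `π`): positivity,
supermultiplicativity and upper bound for the coefficient `kk n` (helper726).
-/

open Polynomial

namespace Pool.Agent.H726R2.PiA

open Pool.Agent.H326R2.Pi
open Pool.Agent.H346R2.Pi (NN NN.mul NN.pow NN.one Sm Sm_nonneg Sm_mul Sm_pow Sm_poly NN_poly4)

/-- numerator -/
noncomputable def Nu (R : Type*) [CommRing R] (n : ℕ) : R[X] :=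
  (1 + 2 * X + 2 * X ^ 2) ^ (3 * n) * (1 + 3 * X + 2 * X ^ 2) ^ (5 * n)

theorem GG_eq (R : Type*) [CommRing R] (n : ℕ) :
    GG R n = (Nu R n : PowerSeries R) * geo2 R ^ (4 * n) := rfl

theorem Nu_map {R S : Type*} [CommRing R] [CommRing S] (f : R →+* S) (n : ℕ) :
    (Nu R n).map f = Nu S n := by
  simp [Nu]

theorem geo2_map {R S : Type*} [CommRing R] [CommRing S] (f : R →+* S) :
    PowerSeries.map f (geo2 R) = geo2 S := by
  ext i
  simp only [geo2, PowerSeries.coeff_map, PowerSeries.coeff_mk]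
  split_ifs
  · rw [map_pow, map_ofNat]
  · rw [map_zero]

theorem GG_map {R S : Type*} [CommRing R] [CommRing S] (f : R →+* S) (n : ℕ) :
    PowerSeries.map f (GG R n) = GG S n := by
  rw [GG_eq, GG_eq, map_mul, map_pow, geo2_map, ← Nu_map f, Polynomial.polynomial_map_coe]

theorem kk_real (n : ℕ) : (kk n : ℝ) = PowerSeries.coeff (4 * n) (GG ℝ n) := by
  rw [← GG_map (Int.castRingHom ℝ), PowerSeries.coeff_map]; rfl

theorem NN_geo2 : NN (geo2 ℝ) := by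
  intro i
  simp only [geo2, PowerSeries.coeff_mk]
  split_ifs <;> positivity

theorem NN_a : NN ((1 + 2 * X + 2 * X ^ 2 : ℝ[X]) : PowerSeries ℝ) := by
  have h : (1 + 2 * X + 2 * X ^ 2 : ℝ[X]) = C 1 + C 2 * X + C 2 * X ^ 2 + C 0 * X ^ 3 + C 0 * X ^ 4 := by
    simp only [map_ofNat, map_zero, map_one]; ring
  rw [h]
  exact NN_poly4 _ _ _ _ _ (by norm_num) (by norm_num) (by norm_num) (by norm_num) (by norm_num)

theorem NN_b : NN ((1 + 3 * X + 2 * X ^ 2 : ℝ[X]) : PowerSeries ℝ) := by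
  have h : (1 + 3 * X + 2 * X ^ 2 : ℝ[X]) = C 1 + C 3 * X + C 2 * X ^ 2 + C 0 * X ^ 3 + C 0 * X ^ 4 := by
    simp only [map_ofNat, map_zero, map_one]; ring
  rw [h]
  exact NN_poly4 _ _ _ _ _ (by norm_num) (by norm_num) (by norm_num) (by norm_num) (by norm_num)

theorem Nu_coe (n : ℕ) : (Nu ℝ n : PowerSeries ℝ) =
    ((1 + 2 * X + 2 * X ^ 2 : ℝ[X]) : PowerSeries ℝ) ^ (3 * n) *
      ((1 + 3 * X + 2 * X ^ 2 : ℝ[X]) : PowerSeries ℝ) ^ (5 * n) := by
  rw [Nu, Polynomial.coe_mul, Polynomial.coe_pow, Polynomial.coe_pow]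

theorem NN_Nu (n : ℕ) : NN (Nu ℝ n : PowerSeries ℝ) := by
  rw [Nu_coe]
  exact (NN_a.pow _).mul (NN_b.pow _)

theorem NN_GG (n : ℕ) : NN (GG ℝ n) := (NN_Nu n).mul (NN_geo2.pow _)

theorem coeff_mul_ge {f k : PowerSeries ℝ} (hf : NN f) (hk : NN k) (i j : ℕ) :
    PowerSeries.coeff i f * PowerSeries.coeff j k ≤ PowerSeries.coeff (i + j) (f * k) := by
  rw [PowerSeries.coeff_mul]
  have hm : (i, j) ∈ Finset.HasAntidiagonal.antidiagonal (i + j) := by simp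
  exact Finset.single_le_sum (f := fun p : ℕ × ℕ =>
    PowerSeries.coeff p.1 f * PowerSeries.coeff p.2 k)
    (fun p _ => mul_nonneg (hf _) (hk _)) hm

theorem coeff0_Nu (n : ℕ) : PowerSeries.coeff 0 (Nu ℝ n : PowerSeries ℝ) = 1 := by
  rw [Polynomial.coeff_coe, Polynomial.coeff_zero_eq_eval_zero, Nu]
  simp

theorem coeff0_geo2 (m : ℕ) : PowerSeries.coeff 0 (geo2 ℝ ^ m) = 1 := by
  rw [PowerSeries.coeff_zero_eq_constantCoeff_apply, map_pow]
  have : PowerSeries.constantCoeff (geo2 ℝ) = 1 := by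
    rw [← PowerSeries.coeff_zero_eq_constantCoeff_apply]; simp [geo2]
  rw [this, one_pow]

theorem kpos : S_kpos := by
  intro n
  have h : (0 : ℝ) < (kk n : ℝ) := by
    rw [kk_real, GG_eq]
    have h1 := coeff_mul_ge (NN_Nu n) (NN_geo2.pow (4 * n)) 0 (4 * n)
    rw [coeff0_Nu, one_mul, zero_add] at h1
    refine lt_of_lt_of_le ?_ h1
    rcases Nat.eq_zero_or_pos n with h0 | h0
    · subst h0
      rw [mul_zero, coeff0_geo2]; norm_num
    · obtain ⟨m, hm⟩ : ∃ m, 4 * n = m + 1 := ⟨4 * n - 1, by omega⟩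
      have h2 : geo2 ℝ ^ (4 * n) = geo2 ℝ * geo2 ℝ ^ m := by rw [hm, pow_succ']
      rw [h2]
      have h3 := coeff_mul_ge NN_geo2 (NN_geo2.pow m) (4 * n) 0
      rw [coeff0_geo2, mul_one, add_zero] at h3
      refine lt_of_lt_of_le ?_ h3
      have h4 : Even (4 * n) := ⟨2 * n, by ring⟩
      simp only [geo2, PowerSeries.coeff_mk, if_pos h4]
      positivity
  exact_mod_cast h

theorem GG_add (m n : ℕ) : GG ℝ (m + n) = GG ℝ m * GG ℝ n := by
  rw [GG_eq, GG_eq, GG_eq, Nu_coe, Nu_coe, Nu_coe, show 3 * (m + n) = 3 * m + 3 * n by ring,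
    show 5 * (m + n) = 5 * m + 5 * n by ring, show 4 * (m + n) = 4 * m + 4 * n by ring,
    pow_add, pow_add, pow_add]
  ring

theorem kmul : S_kmul := by
  intro m n
  have h : (kk m : ℝ) * (kk n : ℝ) ≤ (kk (m + n) : ℝ) := by
    rw [kk_real, kk_real, kk_real, GG_add, show 4 * (m + n) = 4 * m + 4 * n by ring]
    exact coeff_mul_ge (NN_GG m) (NN_GG n) _ _
  exact_mod_cast h

theorem Sm_geo2 {r : ℝ} (hr : 0 ≤ r) (hr1 : 2 * r ^ 2 < 1) (m : ℕ) :
    Sm r m (geo2 ℝ) ≤ 1 / (1 - 2 * r ^ 2) := by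
  have h1 : ∀ M : ℕ, ∑ i ∈ Finset.range (2 * M), PowerSeries.coeff i (geo2 ℝ) * r ^ i =
      ∑ j ∈ Finset.range M, (2 * r ^ 2) ^ j := by
    intro M
    induction M with
    | zero => simp
    | succ M ih =>
      rw [show 2 * (M + 1) = 2 * M + 1 + 1 by ring, Finset.sum_range_succ, Finset.sum_range_succ, ih,
        Finset.sum_range_succ]
      have e1 : Even (2 * M) := ⟨M, by ring⟩
      have e2 : ¬ Even (2 * M + 1) := by
        rw [Nat.not_even_iff_odd]; exact ⟨M, rfl⟩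
      simp only [geo2, PowerSeries.coeff_mk, if_pos e1, if_neg e2, zero_mul, add_zero]
      rw [Nat.mul_div_cancel_left M (by norm_num), mul_pow, ← pow_mul]
  have h2 : Sm r m (geo2 ℝ) ≤ ∑ i ∈ Finset.range (2 * (m + 1)), PowerSeries.coeff i (geo2 ℝ) * r ^ i := by
    unfold Sm
    apply Finset.sum_le_sum_of_subset_of_nonneg
    · intro i hi
      simp only [Finset.mem_range] at hi ⊢
      omega
    · intro i _ _
      exact mul_nonneg (NN_geo2 i) (pow_nonneg hr _)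
  rw [h1] at h2
  refine h2.trans ?_
  have h3 : (0 : ℝ) ≤ 2 * r ^ 2 := by positivity
  rw [geom_sum_eq hr1.ne, ← neg_sub (1 : ℝ) (2 * r ^ 2), ← neg_sub (1 : ℝ), neg_div_neg_eq]
  have : 0 < 1 - 2 * r ^ 2 := by linarith
  gcongr
  have := pow_nonneg h3 (m + 1)
  linarith

theorem kk_upper (n : ℕ) (r : ℝ) (hr : 0 < r) (hr1 : 2 * r ^ 2 < 1) :
    (kk n : ℝ) * r ^ (4 * n) ≤ ((1 + 2 * r + 2 * r ^ 2) ^ 3 * (1 + 3 * r + 2 * r ^ 2) ^ 5 /
      (1 - 2 * r ^ 2) ^ 4) ^ n := by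
  have h1 : (kk n : ℝ) * r ^ (4 * n) ≤ Sm r (4 * n) (GG ℝ n) := by
    rw [kk_real]
    unfold Sm
    exact Finset.single_le_sum (f := fun i => PowerSeries.coeff i (GG ℝ n) * r ^ i)
      (fun i _ => mul_nonneg (NN_GG n i) (pow_nonneg hr.le i)) (Finset.self_mem_range_succ (4 * n))
  have h2 : Sm r (4 * n) (GG ℝ n) ≤ (Nu ℝ n).eval r * (1 / (1 - 2 * r ^ 2)) ^ (4 * n) := by
    rw [GG_eq]
    refine (Sm_mul hr.le (4 * n) (NN_Nu n) (NN_geo2.pow _)).trans ?_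
    apply mul_le_mul (Sm_poly hr.le (4 * n) _ (NN_Nu n)) _ (Sm_nonneg hr.le (4 * n) (NN_geo2.pow _))
    · exact (Sm_nonneg hr.le (4 * n) (NN_Nu n)).trans (Sm_poly hr.le (4 * n) _ (NN_Nu n))
    · refine (Sm_pow hr.le (4 * n) NN_geo2 _).trans ?_
      exact pow_le_pow_left₀ (Sm_nonneg hr.le (4 * n) NN_geo2) (Sm_geo2 hr.le hr1 (4 * n)) _
  refine h1.trans (h2.trans (le_of_eq ?_))
  rw [Nu]
  simp only [Polynomial.eval_add, Polynomial.eval_mul, Polynomial.eval_pow, Polynomial.eval_X,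
        Polynomial.eval_one, Polynomial.eval_ofNat]
  have key : ∀ A B C : ℝ, A ^ (3 * n) * B ^ (5 * n) * (1 / C) ^ (4 * n) =
      (A ^ 3 * B ^ 5 / C ^ 4) ^ n := by
    intro A B C
    rw [div_pow (A ^ 3 * B ^ 5), mul_pow (A ^ 3), ← pow_mul, ← pow_mul, ← pow_mul, one_div, inv_pow,
      ← div_eq_mul_inv]
  exact key _ _ _

theorem exp_one_pow_gt (m : ℕ) : (2.7182818283 : ℝ) ^ m ≤ Real.exp m := by
  have h := Real.exp_one_gt_d9.le
  have : Real.exp (m : ℝ) = Real.exp 1 ^ m := by rw [← Real.exp_nat_mul, mul_one]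
  rw [this]
  exact pow_le_pow_left₀ (by norm_num) h m

/-- the growth constant -/
noncomputable def Gam : ℝ :=
  (1 + 2 * (7 / 36) + 2 * (7 / 36) ^ 2) ^ 3 * (1 + 3 * (7 / 36) + 2 * (7 / 36) ^ 2) ^ 5 /
    (1 - 2 * (7 / 36) ^ 2) ^ 4 / (7 / 36) ^ 4

theorem Gam_le : Gam ≤ Real.exp 10.5405 := by
  have h1 : Gam ^ 272 ≤ Real.exp 10.5405 ^ 272 := by
    have h2 : Real.exp ((2867 : ℕ) : ℝ) ≤ Real.exp 10.5405 ^ 272 := by
      rw [← Real.exp_nat_mul]
      apply Real.exp_le_exp.mpr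
      norm_num
    refine le_trans (le_trans ?_ (exp_one_pow_gt 2867)) h2
    rw [show 2867 = 47 * 61 by norm_num, show 272 = 16 * 17 by norm_num, pow_mul, pow_mul]
    unfold Gam
    norm_num
  exact le_of_pow_le_pow_left₀ (by norm_num) (Real.exp_pos _).le h1

theorem kup : S_kup := by
  intro n
  have h := kk_upper n (7 / 36) (by norm_num) (by norm_num)
  have h2 : (kk n : ℝ) ≤ Gam ^ n := by
    unfold Gam
    rw [div_pow _ ((7 / 36) ^ 4 : ℝ), ← pow_mul (7 / 36 : ℝ), le_div_iff₀ (by positivity)]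
    exact h
  refine h2.trans ?_
  have hG : 0 ≤ Gam := by
    unfold Gam
    norm_num
  calc Gam ^ n ≤ Real.exp 10.5405 ^ n := pow_le_pow_left₀ hG Gam_le n
    _ = Real.exp (10.5405 * n) := by rw [← Real.exp_nat_mul]; ring_nf

end Pool.Agent.H726R2.PiA
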